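import Pool.Agent.H93.GT.Targets
import Pool.Agent.H29.SC.ROO

/-!
Module GFP: alternating sums for periodic weights.
-/

set_option autoImplicit false

open Pool.Agent.H93.GT Pool.Agent.H87.Synth Pool.Agent.H85.SC Finset

namespace Pool.Agent.H85.GT

theorem gfp (h1 : T_GRO) : T_GFP := by
  intro D κ h hD hE X L hXL hDL w hw K
  obtain ⟨a, ha, hz⟩ := hE
  have h1' : ∀ M N : ℕ, avg M N h w =
      ∑ k ∈ Finset.range D, a k * avg M N (fun _ => 1) (w * ze D ^ k) := by
    intro M N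
    unfold avg
    simp_rw [hz, Finset.sum_mul]
    rw [Finset.sum_comm, Finset.mul_sum]
    apply Finset.sum_congr rfl
    intro k _
    have h2 : ∀ z : ℤ, a k * ze D ^ ((k : ℤ) * z) * w ^ z = a k * (1 * (w * ze D ^ k) ^ z) := by
      intro z
      rw [mul_zpow, zpow_mul, zpow_natCast]
      ring
    simp_rw [h2]
    rw [← Finset.mul_sum]
    ring
  have h2 : ∑ b ∈ Finset.range K, (-1) ^ b * avg (X b) (L b) h w = ∑ k ∈ Finset.range D, a k *
      ∑ b ∈ Finset.range K, (-1) ^ b * avg (X b) (L b) (fun _ => 1) (w * ze D ^ k) := by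
    simp_rw [h1', Finset.mul_sum]
    rw [Finset.sum_comm]
    apply Finset.sum_congr rfl
    intro k _
    apply Finset.sum_congr rfl
    intro b _
    ring
  have hκ : 0 ≤ κ := (norm_nonneg _).trans (ha 0)
  rw [h2]
  calc ‖∑ k ∈ Finset.range D, a k *
        ∑ b ∈ Finset.range K, (-1) ^ b * avg (X b) (L b) (fun _ => 1) (w * ze D ^ k)‖
      ≤ ∑ k ∈ Finset.range D, ‖a k *
        ∑ b ∈ Finset.range K, (-1) ^ b * avg (X b) (L b) (fun _ => 1) (w * ze D ^ k)‖ :=
        norm_sum_le _ _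
    _ ≤ ∑ k ∈ Finset.range D, κ *
        ‖∑ b ∈ Finset.range K, (-1) ^ b * avg (X b) (L b) (fun _ => 1) (w * ze D ^ k)‖ := by
        apply Finset.sum_le_sum
        intro k _
        rw [norm_mul]
        exact mul_le_mul_of_nonneg_right (ha k) (norm_nonneg _)
    _ = κ * ∑ k ∈ Finset.range D,
        ‖∑ b ∈ Finset.range K, (-1) ^ b * avg (X b) (L b) (fun _ => 1) (w * ze D ^ k)‖ := by
        rw [Finset.mul_sum]
    _ ≤ κ * 12 := mul_le_mul_of_nonneg_left (h1 D hD X L hXL hDL w hw K) hκ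
    _ = 12 * κ := mul_comm _ _

end Pool.Agent.H85.GT
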